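import Pool.Agent.W2helper10.E9.Fin4

/-!
# The identities for `s ≤ 4` and every modulus

The complete list of the candidates for `s ≤ 4` and all moduli `M`, and for `s ≥ 5` and all
moduli `M > 11 * 2 ^ (s - 3)`: all admissible pairs `(M, s)` outside the window `s ≥ 5`,
`2 ^ (s - 1) ≤ M ≤ (11 / 8) * 2 ^ s`.
-/

namespace Pool.Agent.Results.MP_e9218d_nt.SolutionList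

open Pool.Agent.MPe9218d

/-- For every admissible pair `(M, s)` with `s ≤ 4` or `M > 11 * 2 ^ (s - 3)`, the identity holds only for
the eleven listed triples `(M, s, b)`. -/
theorem result (M s : ℕ) (b : ℕ → ℕ) (hs : 1 ≤ s) (hsM : 2 ^ (s - 1) ≤ M)
    (hw : s ≤ 4 ∨ 11 * 2 ^ (s - 3) < M)
    (hb : ∀ j, 1 ≤ j → j ≤ M → 1 ≤ b j) (h : Identity M s b) :
    (M = 1 ∧ s = 1 ∧ b 1 = 1) ∨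
    (M = 2 ∧ s = 1 ∧ b 1 = 6 ∧ b 2 = 7) ∨
    (M = 2 ∧ s = 2 ∧ b 1 = 1 ∧ b 2 = 1) ∨
    (M = 3 ∧ s = 2 ∧ b 1 = 3 ∧ b 2 = 3 ∧ b 3 = 4) ∨
    (M = 3 ∧ s = 2 ∧ b 1 = 3 ∧ b 2 = 2 ∧ b 3 = 5) ∨
    (M = 4 ∧ s = 3 ∧ b 1 = 3 ∧ b 2 = 2 ∧ b 3 = 3 ∧ b 4 = 2) ∨
    (M = 4 ∧ s = 3 ∧ b 1 = 4 ∧ b 2 = 1 ∧ b 3 = 4 ∧ b 4 = 1) ∨
    (M = 6 ∧ s = 3 ∧ b 1 = 7 ∧ b 2 = 6 ∧ b 3 = 7 ∧ b 4 = 6 ∧ b 5 = 6 ∧ b 6 = 7) ∨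
    (M = 6 ∧ s = 3 ∧ b 1 = 7 ∧ b 2 = 6 ∧ b 3 = 7 ∧ b 4 = 6 ∧ b 5 = 5 ∧ b 6 = 8) ∨
    (M = 7 ∧ s = 3 ∧ b 1 = 10 ∧ b 2 = 10 ∧ b 3 = 7 ∧ b 4 = 12 ∧ b 5 = 7 ∧ b 6 = 7 ∧ b 7 = 15) ∨
    (M = 15 ∧ s = 4 ∧ b 1 = 33 ∧ b 2 = 33 ∧ b 3 = 22 ∧ b 4 = 35 ∧ b 5 = 22 ∧ b 6 = 22 ∧
      b 7 = 15 ∧ b 8 = 39 ∧ b 9 = 26 ∧ b 10 = 26 ∧ b 11 = 15 ∧ b 12 = 28 ∧ b 13 = 15 ∧
      b 14 = 15 ∧ b 15 = 46) :=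
  Pool.Agent.W2helper10.E9.list4 M s b hs hsM hw hb h

end Pool.Agent.Results.MP_e9218d_nt.SolutionList
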